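import Pool.Agent.H354Z.QP.Main

set_option autoImplicit false

/-- The set of isomorphism classes of Q-points on `ℕ` is finite or uncountable, so there are
never exactly `ℵ₀` Q-points up to isomorphism. -/
theorem Pool.Agent.Results.MP_97d187_lc.AFiniteOrUncountable.result :
    Pool.Agent.H354Z.QP.qClasses.Finite ∨ ¬ Pool.Agent.H354Z.QP.qClasses.Countable :=
  Pool.Agent.H354Z.QP.finite_or_uncountable
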